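import Pool.Agent.H221R3.MD.StmtsP

/-! Project MD: TaskP3 (helper251). -/

set_option autoImplicit false

namespace Pool.Agent.H221R3.MD

open Real in
theorem p3_key (a b c φ : ℝ) (h : a + b + c = -φ) (hT : 2 * (cos a + cos b + cos c) ≤ -3) :
    (2 * (cos a + cos b + cos c) + 3) ^ 2 ≤ 8 * (1 - cos φ) := by
  have hc : cos c = cos (a + b + φ) := by
    have : c = -(a + b + φ) := by linarith
    rw [this, cos_neg]
  have h1 : 0 ≤ 3 + 2 * (cos a + cos b + cos (a + b)) := by
    have e1 := sin_sq_add_cos_sq a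
    have e2 := sin_sq_add_cos_sq (a + b)
    have e3 : cos b = cos (a + b) * cos a + sin (a + b) * sin a := by
      rw [← cos_sub]
      congr 1
      ring
    have e4 := sq_nonneg (1 + cos a + cos (a + b))
    have e5 := sq_nonneg (sin a + sin (a + b))
    rw [e3]
    nlinarith
  have h2 : (cos (a + b + φ) - cos (a + b)) ^ 2 ≤ 2 * (1 - cos φ) := by
    rw [cos_add (a + b) φ]
    have e1 := sin_sq_add_cos_sq φ
    have e2 := sin_sq_add_cos_sq (a + b)
    have e3 := sq_nonneg (cos (a + b) * sin φ + sin (a + b) * (cos φ - 1))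
    have e4 : (cos (a + b) * cos φ - sin (a + b) * sin φ - cos (a + b)) ^ 2 =
        (sin (a + b) ^ 2 + cos (a + b) ^ 2) * ((cos φ - 1) ^ 2 + sin φ ^ 2) -
          (cos (a + b) * sin φ + sin (a + b) * (cos φ - 1)) ^ 2 := by ring
    rw [e4, e2]
    nlinarith
  rw [hc] at hT ⊢
  have h3 : 2 * (cos (a + b + φ) - cos (a + b)) ≤ 2 * (cos a + cos b + cos (a + b + φ)) + 3 := by
    linarith
  have h4 : (2 * (cos a + cos b + cos (a + b + φ)) + 3) ^ 2 ≤
      (2 * (cos (a + b + φ) - cos (a + b))) ^ 2 := by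
    have h5 : 2 * (cos (a + b + φ) - cos (a + b)) -
        (2 * (cos a + cos b + cos (a + b + φ)) + 3) ≤ 0 := by linarith
    have h6 : 2 * (cos (a + b + φ) - cos (a + b)) +
        (2 * (cos a + cos b + cos (a + b + φ)) + 3) ≤ 0 := by linarith
    have h7 := mul_nonneg_of_nonpos_of_nonpos h5 h6
    linarith [show (2 * (cos (a + b + φ) - cos (a + b)) -
        (2 * (cos a + cos b + cos (a + b + φ)) + 3)) * (2 * (cos (a + b + φ) - cos (a + b)) +
        (2 * (cos a + cos b + cos (a + b + φ)) + 3)) = (2 * (cos (a + b + φ) - cos (a + b))) ^ 2 -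
        (2 * (cos a + cos b + cos (a + b + φ)) + 3) ^ 2 by ring]
  calc _ ≤ (2 * (cos (a + b + φ) - cos (a + b))) ^ 2 := h4
    _ = 4 * (cos (a + b + φ) - cos (a + b)) ^ 2 := by ring
    _ ≤ 4 * (2 * (1 - cos φ)) := by linarith
    _ = _ := by ring

theorem taskP3 : TaskP3 := by
  intro a b c φ h
  refine ⟨fun hT => ?_, p3_key a b c φ h⟩
  have key := p3_key (a - Real.pi) (b - Real.pi) (c - Real.pi) (φ + Real.pi + 2 * Real.pi)
    (by linarith) (by
      rw [Real.cos_sub_pi, Real.cos_sub_pi, Real.cos_sub_pi]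
      linarith)
  rw [Real.cos_sub_pi, Real.cos_sub_pi, Real.cos_sub_pi, Real.cos_add_two_pi,
    Real.cos_add_pi] at key
  nlinarith

end Pool.Agent.H221R3.MD
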